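import Mathlib
import Pool.Agent.Helper876.CutBody
import Pool.Agent.Results.MP_2a19ed_co.AdCut

set_option autoImplicit false

namespace Pool.Agent.H263R2.Ultra

open Matrix MeasureTheory TopologicalSpace Topology Set
open scoped Pointwise

abbrev E (d : ℕ) := EuclideanSpace ℝ (Fin d)

/-- The space in the frozen statement. -/
abbrev X (d : ℕ) := {K : ConvexBody (E d) // ∀ x ∈ K, -x ∈ K}

variable {d : ℕ}

open Pool.Agent.Helper876

def toS (C : X d) : Pool.Agent.Helper876.Sub (E d) :=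
  ⟨⟨⟨(C.1 : Set (E d)), C.1.isCompact⟩, C.1.nonempty⟩, C.1.convex, C.2⟩

lemma isometry_toS : Isometry (toS : X d → Pool.Agent.Helper876.Sub (E d)) := by
  intro A B
  rw [Subtype.edist_eq, Subtype.edist_eq]
  change Metric.hausdorffEDist (A.1 : Set (E d)) (B.1 : Set (E d)) = edist A.1 B.1
  exact ConvexBody.hausdorffEDist_coe _ _

lemma range_toS : range (toS : X d → Pool.Agent.Helper876.Sub (E d)) = univ := by
  rw [eq_univ_iff_forall]
  intro K
  exact ⟨⟨ofSub K, K.2.2⟩, rfl⟩

instance baireX : BaireSpace (X d) := by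
  have : CompleteSpace (Pool.Agent.Helper876.Sub (E d)) := (isClosed_symConvex (V := E d)).completeSpace_coe
  have h : Topology.IsOpenEmbedding (toS : X d → Pool.Agent.Helper876.Sub (E d)) :=
    ⟨isometry_toS.isEmbedding, by rw [range_toS]; exact isOpen_univ⟩
  exact h.baireSpace

/-- the norm of a body in coordinates -/
noncomputable def gg (C : X d) (x : Fin d → ℝ) : ℝ := gauge (C.1 : Set (E d)) (WithLp.toLp 2 x)

/-- Open set of bodies with few contacts. -/
lemma exists_open (d : ℕ) (hd : 2 ≤ d) : ∃ (X₀ : X d) (δ : ℝ), 0 < δ ∧ ∀ C : X d, dist X₀ C < δ →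
    (C.1 : Set (E d)) ∈ 𝓝 (0 : E d) ∧ (∃ B, IsDens (gg C) B) ∧
      ∀ B, IsDens (gg C) B → (Contacts (gg C) B).encard ≤ (d * (d + 1) : ℕ) := by
  classical
  obtain ⟨ε, s, hε0, hε1, hs0, hs1, hmain⟩ := Pool.Agent.Helper876.abstract_main d (by omega)
  set C₀ : ConvexBody (E d) := Pool.Agent.Results.MP_2a19ed_co.AdCut.cutBody d hε1 with hC₀
  have hmemC₀ : ∀ x : E d, x ∈ (C₀ : Set (E d)) ↔ WithLp.ofLp x ∈ Pool.Agent.Helper876.Pe d ε 1 :=
    fun x => Iff.rfl
  set r : ℝ := 1 / (2 * (d + 1)) with hr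
  have hr0 : 0 < r := by positivity
  have hball : Metric.closedBall (0 : E d) r ⊆ (C₀ : Set (E d)) := by
    intro x hx
    rw [mem_closedBall_zero_iff] at hx
    rw [hmemC₀]
    apply Pool.Agent.Helper876.small_mem_Pe hε1
    calc 2 * ((d:ℝ) + 1) * ‖(WithLp.ofLp x : Fin d → ℝ)‖ ≤ 2 * (d + 1) * r := by
          gcongr
          exact (Pool.Agent.Results.MP_2a19ed_co.AdCut.norm_ofLp_le x).trans hx
      _ = 1 := by rw [hr]; field_simp
  have hsymm₀ : ∀ x ∈ (C₀ : Set (E d)), -x ∈ (C₀ : Set (E d)) := by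
    intro x hx
    rw [hmemC₀] at *
    exact Pool.Agent.Helper876.Pe_symm hx
  let X₀ : X d := ⟨C₀, hsymm₀⟩
  refine ⟨X₀, s * r, by positivity, ?_⟩
  intro C hC
  have hdist : dist C₀ C.1 < s * r := hC
  obtain ⟨hin, hout⟩ := Pool.Agent.Helper876.near hball hr0 hs0 (by linarith) hdist
  -- the norm of `C`
  have hnhds : (C.1 : Set (E d)) ∈ 𝓝 (0 : E d) := by
    have h1 : Metric.closedBall (0 : E d) ((1 - s) * r) ⊆ (C.1 : Set (E d)) := by
      intro x hx
      apply hin
      have h1s : 0 < 1 - s := by linarith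
      refine ⟨(1 - s)⁻¹ • x, hball ?_, ?_⟩
      · rw [mem_closedBall_zero_iff] at hx ⊢
        rw [norm_smul, norm_inv, Real.norm_of_nonneg h1s.le, inv_mul_le_iff₀ h1s]
        exact hx
      · simp only
        rw [smul_smul, mul_inv_cancel₀ h1s.ne', one_smul]
    have h1s : 0 < (1 - s) * r := mul_pos (by linarith) hr0
    exact Filter.mem_of_superset (Metric.closedBall_mem_nhds _ h1s) h1
  have hG : Pool.Agent.Helper876.IsG d ε s (gg C) := by
    refine ⟨?_, ?_, ?_, ?_⟩
    · intro c x hc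
      show gauge (C.1 : Set (E d)) (WithLp.toLp 2 (c • x)) = c * gauge _ (WithLp.toLp 2 x)
      rw [WithLp.toLp_smul, gauge_smul_of_nonneg hc, smul_eq_mul]
    · exact (continuous_gauge C.1.convex hnhds).comp (PiLp.continuous_toLp 2 _)
    · intro x hx
      show gauge (C.1 : Set (E d)) (WithLp.toLp 2 x) < 1
      rw [gauge_lt_one_iff_mem_interior C.1.convex hnhds]
      rw [mem_interior]
      refine ⟨{y | WithLp.ofLp y ∈ Pool.Agent.Helper876.Ue d ε (1 - s)}, ?_, ?_, hx⟩
      · intro y hy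
        apply hin
        have h1s : 0 < 1 - s := by linarith
        refine ⟨(1 - s)⁻¹ • y, ?_, ?_⟩
        · rw [hmemC₀]
          have h2 := Pool.Agent.Helper876.smul_mem_Pe (inv_nonneg.2 h1s.le)
            (Pool.Agent.Helper876.Ue_sub_Pe _ _ hy)
          rw [inv_mul_cancel₀ h1s.ne'] at h2
          exact h2
        · simp only
          rw [smul_smul, mul_inv_cancel₀ h1s.ne', one_smul]
      · exact (Pool.Agent.Helper876.Ue_open ε (1 - s)).preimage (PiLp.continuous_ofLp 2 _)
    · intro x hx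
      have h1 : (WithLp.toLp 2 x : E d) ∈ (C.1 : Set (E d)) := by
        have := (gauge_le_one_iff_mem_closure C.1.convex hnhds (x := (WithLp.toLp 2 x : E d))).1 hx
        rwa [C.1.isClosed.closure_eq] at this
      obtain ⟨y, hy, hyx⟩ := hout h1
      rw [hmemC₀] at hy
      have h2 := Pool.Agent.Helper876.smul_mem_Pe (by linarith : (0:ℝ) ≤ 1 + s) hy
      rw [mul_one] at h2
      have h3 : x = (1 + s) • (WithLp.ofLp y : Fin d → ℝ) := by
        have := congrArg (WithLp.ofLp (p := 2)) hyx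
        simpa using this.symm
      rw [h3]
      exact h2
  exact ⟨hnhds, hmain _ hG⟩

end Pool.Agent.H263R2.Ultra
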