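import Mathlib
import Pool.Agent.Helper876.GlobMain

set_option autoImplicit false

namespace Pool.Agent.H263R2.Ultra

open Matrix MeasureTheory TopologicalSpace Topology Set
open Pool.Agent.Helper876 (cast minN IsDens Contacts)

variable {d : ℕ}

/-- a norm given as a function -/
structure NL (g : (Fin d → ℝ) → ℝ) : Prop where
  hom : ∀ (c : ℝ) (x : Fin d → ℝ), 0 ≤ c → g (c • x) = c * g x
  add : ∀ x y, g (x + y) ≤ g x + g y
  neg : ∀ x, g (-x) = g x
  lower : ∃ κ : ℝ, 0 < κ ∧ ∀ x, κ * ‖x‖ ≤ g x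
  upper : ∃ K : ℝ, 0 < K ∧ ∀ x, g x ≤ K * ‖x‖

variable {g : (Fin d → ℝ) → ℝ}

lemma NL.nonneg (h : NL g) (x : Fin d → ℝ) : 0 ≤ g x := by
  obtain ⟨κ, hκ, hl⟩ := h.lower
  exact le_trans (by positivity) (hl x)

lemma NL.zero (h : NL g) : g 0 = 0 := by
  have := h.hom 0 0 le_rfl
  simpa using this

lemma NL.pos (h : NL g) {x : Fin d → ℝ} (hx : x ≠ 0) : 0 < g x := by
  obtain ⟨κ, hκ, hl⟩ := h.lower
  exact lt_of_lt_of_le (mul_pos hκ (norm_pos_iff.mpr hx)) (hl x)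

/-- support functional -/
lemma NL.support (h : NL g) (l : Fin d → ℝ) :
    ∃ u : (Fin d → ℝ) →ₗ[ℝ] ℝ, u l = g l ∧ ∀ x, u x ≤ g x := by
  by_cases hl : l = 0
  · refine ⟨0, ?_, fun x => ?_⟩
    · rw [hl, h.zero]; simp
    · simpa using h.nonneg x
  · let f : (Fin d → ℝ) →ₗ.[ℝ] ℝ := LinearPMap.mkSpanSingleton l (g l) hl
    obtain ⟨u, hu1, hu2⟩ := exists_extension_of_le_sublinear f g
      (fun c hc x => h.hom c x hc.le) h.add (by
        rintro ⟨x, hx⟩
        obtain ⟨c, rfl⟩ := Submodule.mem_span_singleton.mp hx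
        have : f ⟨c • l, hx⟩ = c • g l := LinearPMap.mkSpanSingleton'_apply _ _ _ _ hx
        rw [this, smul_eq_mul]
        show c * g l ≤ g (c • l)
        rcases le_or_gt 0 c with hc | hc
        · rw [h.hom c l hc]
        · have h1 := h.nonneg (c • l)
          have h2 := h.nonneg l
          nlinarith)
    refine ⟨u, ?_, hu2⟩
    have hmem : l ∈ f.domain := Submodule.mem_span_singleton_self l
    have h1 := hu1 ⟨l, hmem⟩
    have h2 : f ⟨l, hmem⟩ = g l := by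
      exact LinearPMap.mkSpanSingleton_apply ℝ ℝ hl (g l)
    rw [h2] at h1
    exact h1

lemma cast_ne {z : Fin d → ℤ} (hz : z ≠ 0) : (cast z : Fin d → ℝ) ≠ 0 := by
  intro h
  apply hz
  funext i
  have := congrFun h i
  simpa [Pool.Agent.Helper876.cast] using this

lemma mulVec_ne {B : Matrix (Fin d) (Fin d) ℝ} (hB : B.det ≠ 0) {x : Fin d → ℝ} (hx : x ≠ 0) :
    B *ᵥ x ≠ 0 := by
  intro h
  apply hx
  have hBu : IsUnit B.det := isUnit_iff_ne_zero.2 hB
  have h3 : B⁻¹ *ᵥ (B *ᵥ x) = x := by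
    rw [Matrix.mulVec_mulVec, Matrix.nonsing_inv_mul _ hBu, Matrix.one_mulVec]
  rw [← h3, h, Matrix.mulVec_zero]

lemma NL.finite_le (h : NL g) {B : Matrix (Fin d) (Fin d) ℝ} (hB : B.det ≠ 0) (R : ℝ) :
    {z : Fin d → ℤ | g (B *ᵥ cast z) ≤ R}.Finite := by
  obtain ⟨κ, hκ, hl⟩ := h.lower
  have hBu : IsUnit B.det := isUnit_iff_ne_zero.2 hB
  -- norm bound for the inverse
  obtain ⟨C, hC⟩ : ∃ C : ℝ, ∀ x : Fin d → ℝ, ‖B⁻¹ *ᵥ x‖ ≤ C * ‖x‖ := by
    let L := LinearMap.toContinuousLinearMap (Matrix.mulVecLin B⁻¹)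
    exact ⟨‖L‖, fun x => L.le_opNorm x⟩
  have hsub : {z : Fin d → ℤ | g (B *ᵥ cast z) ≤ R} ⊆
      Metric.closedBall (0 : Fin d → ℤ) (|C| * (R / κ)) := by
    intro z hz
    have hz : g (B *ᵥ cast z) ≤ R := hz
    have h1 : ‖B *ᵥ cast z‖ ≤ R / κ := by
      rw [le_div_iff₀ hκ, mul_comm]; exact (hl _).trans hz
    have h2 : B⁻¹ *ᵥ (B *ᵥ cast z) = (cast z : Fin d → ℝ) := by
      rw [Matrix.mulVec_mulVec, Matrix.nonsing_inv_mul _ hBu, Matrix.one_mulVec]
    have h3 : ‖(cast z : Fin d → ℝ)‖ ≤ |C| * (R / κ) := by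
      calc ‖(cast z : Fin d → ℝ)‖ = ‖B⁻¹ *ᵥ (B *ᵥ cast z)‖ := by rw [h2]
        _ ≤ C * ‖B *ᵥ cast z‖ := hC _
        _ ≤ |C| * ‖B *ᵥ cast z‖ := by gcongr; exact le_abs_self C
        _ ≤ |C| * (R / κ) := by gcongr
    rw [mem_closedBall_zero_iff]
    have h4 : ‖z‖ = ‖(cast z : Fin d → ℝ)‖ := by
      simp only [Pi.norm_def]
      rfl
    rw [h4]; exact h3
  have hfin : (Metric.closedBall (0 : Fin d → ℤ) (|C| * (R / κ))).Finite :=
    (isCompact_closedBall _ _).finite_of_discrete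
  exact hfin.subset hsub

lemma NL.minN_le (h : NL g) (B : Matrix (Fin d) (Fin d) ℝ) {z : Fin d → ℤ} (hz : z ≠ 0) :
    minN g B ≤ g (B *ᵥ cast z) := by
  unfold minN
  exact ciInf_le ⟨0, by rintro _ ⟨w, rfl⟩; exact h.nonneg _⟩ (⟨z, hz⟩ : {z : Fin d → ℤ // z ≠ 0})

lemma nonempty_nz (hd : 1 ≤ d) : Nonempty {z : Fin d → ℤ // z ≠ 0} :=
  ⟨⟨fun _ => 1, fun h => by
    have := congrFun h (⟨0, hd⟩ : Fin d)
    simp at this⟩⟩

/-- gap above the minimum -/
lemma NL.gap (h : NL g) (hd : 1 ≤ d) {B : Matrix (Fin d) (Fin d) ℝ} (hB : B.det ≠ 0) :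
    0 < minN g B ∧ ∃ η : ℝ, 0 < η ∧ ∀ z : Fin d → ℤ, z ≠ 0 →
      g (B *ᵥ cast z) = minN g B ∨ (1 + η) * minN g B ≤ g (B *ᵥ cast z) := by
  have hne := nonempty_nz hd
  obtain ⟨⟨z0, hz0⟩⟩ := nonempty_nz hd
  -- the finite set of values below a bound
  set R := g (B *ᵥ cast z0) with hR
  have hfin := h.finite_le hB (2 * R)
  set S := hfin.toFinset with hS
  have hmemS : ∀ z, z ∈ S ↔ g (B *ᵥ cast z) ≤ 2 * R := by intro z; simp [hS]
  have hRpos : 0 < R := h.pos (mulVec_ne hB (cast_ne hz0))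
  have hz0S : z0 ∈ S := (hmemS z0).mpr (by linarith)
  -- minimum attained
  obtain ⟨z1, hz1, hmin⟩ := Finset.exists_min_image (S.filter (· ≠ 0)) (fun z => g (B *ᵥ cast z))
    ⟨z0, by simp [hz0S, hz0]⟩
  have hz1' := Finset.mem_filter.mp hz1
  have hlam : minN g B = g (B *ᵥ cast z1) := by
    apply le_antisymm (h.minN_le B hz1'.2)
    unfold minN
    refine le_ciInf fun ⟨z, hz⟩ => ?_
    by_cases hzS : z ∈ S
    · exact hmin z (Finset.mem_filter.mpr ⟨hzS, hz⟩)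
    · have h1 : ¬ g (B *ᵥ cast z) ≤ 2 * R := fun hh => hzS ((hmemS z).mpr hh)
      have h2 := hmin z0 (Finset.mem_filter.mpr ⟨hz0S, hz0⟩)
      show g (B *ᵥ cast z1) ≤ g (B *ᵥ cast z)
      have : g (B *ᵥ cast z1) ≤ R := h2
      linarith
  have hpos : 0 < minN g B := by
    rw [hlam]; exact h.pos (mulVec_ne hB (cast_ne hz1'.2))
  refine ⟨hpos, ?_⟩
  have hlamR : minN g B ≤ R := h.minN_le B hz0
  -- the finite set of values strictly above the minimum
  set T := S.filter (fun z => minN g B < g (B *ᵥ cast z)) with hT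
  rcases T.eq_empty_or_nonempty with hTe | hTn
  · refine ⟨1, one_pos, fun z hz => ?_⟩
    by_cases hzS : z ∈ S
    · left
      have h1 : z ∉ T := by rw [hTe]; simp
      have h2 : ¬ minN g B < g (B *ᵥ cast z) := fun hh => h1 (Finset.mem_filter.mpr ⟨hzS, hh⟩)
      exact le_antisymm (not_lt.mp h2) (h.minN_le B hz)
    · right
      have h1 : ¬ g (B *ᵥ cast z) ≤ 2 * R := fun hh => hzS ((hmemS z).mpr hh)
      linarith
  · obtain ⟨z2, hz2, hmin2⟩ := Finset.exists_min_image T (fun z => g (B *ᵥ cast z)) hTn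
    have hz2' := Finset.mem_filter.mp hz2
    set m2 := g (B *ᵥ cast z2) with hm2
    refine ⟨min 1 (m2 / minN g B - 1), lt_min one_pos ?_, fun z hz => ?_⟩
    · rw [sub_pos, one_lt_div hpos]; exact hz2'.2
    by_cases hzS : z ∈ S
    · by_cases hlt : minN g B < g (B *ᵥ cast z)
      · right
        have h1 := hmin2 z (Finset.mem_filter.mpr ⟨hzS, hlt⟩)
        calc (1 + min 1 (m2 / minN g B - 1)) * minN g B ≤ (1 + (m2 / minN g B - 1)) * minN g B := by
              gcongr; exact min_le_right _ _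
          _ = m2 := by field_simp; ring
          _ ≤ _ := h1
      · left
        exact le_antisymm (not_lt.mp hlt) (h.minN_le B hz)
    · right
      have h1 : ¬ g (B *ᵥ cast z) ≤ 2 * R := fun hh => hzS ((hmemS z).mpr hh)
      calc (1 + min 1 (m2 / minN g B - 1)) * minN g B ≤ (1 + 1) * minN g B := by
            gcongr; exact min_le_left _ _
        _ ≤ _ := by linarith

end Pool.Agent.H263R2.Ultra
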