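import Mathlib
import Pool.Agent.H263R2.Ultra.B

set_option autoImplicit false

namespace Pool.Agent.H263R2.Ultra

open Matrix MeasureTheory TopologicalSpace Topology Set
open Pool.Agent.Helper876 (cast minN IsDens Contacts)

variable {d : ℕ} {g : (Fin d → ℝ) → ℝ}

/-- half of a finite symmetric set -/
lemma half_card {T : Set (Fin d → ℝ)} (hT : T.Finite) (hsym : ∀ x ∈ T, -x ∈ T)
    {n : ℕ} (hn : T.encard ≤ n) :
    ∃ P : Finset (Fin d → ℝ), (∀ x ∈ P, x ∈ T) ∧ 2 * P.card ≤ n ∧
      ∀ x ∈ T, x ≠ 0 → x ∈ P ∨ -x ∈ P := by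
  classical
  set S := hT.toFinset with hS
  have hmem : ∀ x, x ∈ S ↔ x ∈ T := fun x => by simp [hS]
  set P := S.filter (fun x => 0 < toLex x) with hP
  refine ⟨P, fun x hx => (hmem x).mp (Finset.mem_filter.mp hx).1, ?_, ?_⟩
  · have hinj : Function.Injective (fun x : Fin d → ℝ => -x) := neg_injective
    have hdisj : Disjoint P (P.image (fun x => -x)) := by
      rw [Finset.disjoint_left]
      intro x hx hx'
      obtain ⟨y, hy, rfl⟩ := Finset.mem_image.mp hx'
      have h1 := (Finset.mem_filter.mp hx).2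
      have h2 := (Finset.mem_filter.mp hy).2
      have h3 : toLex (-y) = -(toLex y) := rfl
      rw [h3] at h1
      have h4 : toLex y < 0 := neg_pos.mp h1
      exact absurd (h2.trans h4) (lt_irrefl _)
    have hsub : P ∪ P.image (fun x => -x) ⊆ S := by
      intro x hx
      rcases Finset.mem_union.mp hx with h | h
      · exact (Finset.mem_filter.mp h).1
      · obtain ⟨y, hy, rfl⟩ := Finset.mem_image.mp h
        exact (hmem _).mpr (hsym _ ((hmem _).mp (Finset.mem_filter.mp hy).1))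
    have hcard := Finset.card_le_card hsub
    rw [Finset.card_union_of_disjoint hdisj, Finset.card_image_of_injective _ hinj] at hcard
    have h5 : (S.card : ℕ∞) ≤ n := by
      rw [← Set.Finite.encard_eq_coe_toFinset_card hT]; exact hn
    have h6 : S.card ≤ n := by exact_mod_cast h5
    omega
  · intro x hx hx0
    have hne : toLex x ≠ 0 := fun h => hx0 (by simpa using congrArg ofLex h)
    rcases lt_or_gt_of_ne hne with h | h
    · right
      refine Finset.mem_filter.mpr ⟨(hmem _).mpr (hsym _ hx), ?_⟩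
      show 0 < toLex (-x)
      have h3 : toLex (-x) = -(toLex x) := rfl
      rw [h3]
      exact neg_pos.mpr h
    · left
      exact Finset.mem_filter.mpr ⟨(hmem _).mpr hx, h⟩

/-- A nonzero traceless matrix killed by all contact functionals. -/
lemma exists_matrix (P : Finset (Fin d → ℝ)) (u : (Fin d → ℝ) → (Fin d → ℝ) →ₗ[ℝ] ℝ)
    (hc : P.card + 1 < d * d) :
    ∃ M : Matrix (Fin d) (Fin d) ℝ, M ≠ 0 ∧ M.trace = 0 ∧ ∀ l ∈ P, u l (M *ᵥ l) = 0 := by
  let L1 : Matrix (Fin d) (Fin d) ℝ →ₗ[ℝ] (P → ℝ) :=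
    LinearMap.pi fun l => (u l.1) ∘ₗ ((Matrix.mulVecBilin ℝ ℝ).flip l.1)
  let L : Matrix (Fin d) (Fin d) ℝ →ₗ[ℝ] (P → ℝ) × ℝ := L1.prod (Matrix.traceLinearMap (Fin d) ℝ ℝ)
  have hker : LinearMap.ker L ≠ ⊥ := by
    apply LinearMap.ker_ne_bot_of_finrank_lt
    simp [Module.finrank_matrix]
    exact hc
  obtain ⟨M, hM, hM0⟩ := (Submodule.ne_bot_iff _).mp hker
  have hL : L M = 0 := hM
  refine ⟨M, hM0, ?_, ?_⟩
  · have := congrArg Prod.snd hL
    simpa [L] using this
  · intro l hl
    have h1 := congrArg Prod.fst hL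
    have h2 := congrFun h1 ⟨l, hl⟩
    simpa [L, L1] using h2

lemma det_bound (M : Matrix (Fin d) (Fin d) ℝ) (htr : M.trace = 0) :
    ∃ K : ℝ, 0 < K ∧ ∀ t : ℝ, 0 ≤ t → t ≤ 1 → |(1 + t • M).det| ≤ 1 + K * t ^ 2 := by
  set p := (Matrix.det (1 + (Polynomial.X : Polynomial ℝ) • M.map Polynomial.C)).divX.divX with hp
  have hcont : ContinuousOn (fun t : ℝ => |p.eval t|) (Icc 0 1) :=
    (p.continuous.abs).continuousOn
  obtain ⟨K, hK⟩ := (isCompact_Icc.bddAbove_image hcont)
  refine ⟨|K| + 1, by positivity, fun t h0 h1 => ?_⟩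
  have hKt : |p.eval t| ≤ K := hK ⟨t, ⟨h0, h1⟩, rfl⟩
  rw [Matrix.det_one_add_smul, htr, zero_mul, add_zero, ← hp]
  calc |1 + p.eval t * t ^ 2| ≤ |1| + |p.eval t * t ^ 2| := abs_add_le _ _
    _ = 1 + |p.eval t| * t ^ 2 := by rw [abs_one, abs_mul, abs_of_nonneg (sq_nonneg t)]
    _ ≤ 1 + (|K| + 1) * t ^ 2 := by
        have : |p.eval t| ≤ |K| + 1 := by linarith [le_abs_self K]
        gcongr

/-- With few contacts, the density cannot drop linearly in every traceless direction. -/
lemma not_ultra (h : NL g) (hd : 3 ≤ d) {B : Matrix (Fin d) (Fin d) ℝ} (hB : B.det ≠ 0)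
    (hcard : (Contacts g B).encard ≤ (d * (d + 1) : ℕ)) :
    ∃ M : Matrix (Fin d) (Fin d) ℝ, M ≠ 0 ∧ M.trace = 0 ∧ ∀ a : ℝ, 0 < a →
      ∃ t₀ : ℝ, 0 < t₀ ∧ ∀ t : ℝ, 0 < t → t < t₀ →
        ¬ (minN g ((1 + t • M) * B) ^ d / |((1 + t • M) * B).det| ≤
          (1 - a * t) * (minN g B ^ d / |B.det|)) := by
  classical
  have hd1 : 1 ≤ d := by omega
  obtain ⟨hlam, η, hη, hgap⟩ := h.gap hd1 hB
  set lam := minN g B with hlamdef
  have hfin : (Contacts g B).Finite := by
    apply Set.finite_of_encard_le_coe (k := d * (d + 1)) hcard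
  have hsym : ∀ x ∈ Contacts g B, -x ∈ Contacts g B := by
    rintro x ⟨⟨z, rfl⟩, hx⟩
    refine ⟨⟨-z, ?_⟩, by rw [h.neg]; exact hx⟩
    rw [← Matrix.mulVec_neg]
    congr 1
    funext i
    simp [Pool.Agent.Helper876.cast]
  obtain ⟨P, hPT, hPc, hPall⟩ := half_card hfin hsym hcard
  choose u hu1 hu2 using h.support
  obtain ⟨M, hM0, hMtr, hMu⟩ := exists_matrix P u (by nlinarith)
  refine ⟨M, hM0, hMtr, fun a ha => ?_⟩
  obtain ⟨K, hK, hdet⟩ := det_bound M hMtr
  -- norm control
  obtain ⟨κ, hκ, hl⟩ := h.lower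
  obtain ⟨U, hU, hup⟩ := h.upper
  obtain ⟨N, hN0, hN⟩ : ∃ N : ℝ, 0 < N ∧ ∀ x : Fin d → ℝ, ‖M *ᵥ x‖ ≤ N * ‖x‖ := by
    let L := LinearMap.toContinuousLinearMap (Matrix.mulVecLin M)
    refine ⟨‖L‖ + 1, by positivity, fun x => (L.le_opNorm x).trans ?_⟩
    gcongr; linarith
  set C := U * N / κ with hCdef
  have hC : 0 < C := by positivity
  have hMg : ∀ x : Fin d → ℝ, g (M *ᵥ x) ≤ C * g x := by
    intro x
    calc g (M *ᵥ x) ≤ U * ‖M *ᵥ x‖ := hup _
      _ ≤ U * (N * ‖x‖) := by gcongr; exact hN x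
      _ = C * (κ * ‖x‖) := by rw [hCdef]; field_simp
      _ ≤ C * g x := by gcongr; exact hl x
  -- the threshold
  set t₀ := min 1 (min (a / K) (η / ((1 + η) * C))) with ht₀
  refine ⟨t₀, by positivity, fun t ht0 htt hcon => ?_⟩
  have ht1 : t < 1 := lt_of_lt_of_le htt (min_le_left _ _)
  have ht2 : t < a / K := lt_of_lt_of_le htt ((min_le_right _ _).trans (min_le_left _ _))
  have ht3 : t < η / ((1 + η) * C) :=
    lt_of_lt_of_le htt ((min_le_right _ _).trans (min_le_right _ _))
  have ht2' : K * t < a := by rw [lt_div_iff₀ hK] at ht2; linarith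
  have ht3' : t * ((1 + η) * C) < η := by rwa [lt_div_iff₀ (by positivity)] at ht3
  -- the minimum does not decrease
  have hmin : lam ≤ minN g ((1 + t • M) * B) := by
    have := nonempty_nz hd1
    unfold minN
    refine le_ciInf fun ⟨z, hz⟩ => ?_
    show lam ≤ g (((1 + t • M) * B) *ᵥ cast z)
    set l := B *ᵥ (cast z : Fin d → ℝ) with hldef
    have e1 : ((1 + t • M) * B) *ᵥ cast z = l + t • (M *ᵥ l) := by
      rw [← Matrix.mulVec_mulVec, Matrix.add_mulVec, Matrix.one_mulVec, Matrix.smul_mulVec]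
    rw [e1]
    rcases hgap z hz with hz1 | hz1
    · have hlT : l ∈ Contacts g B := ⟨⟨z, rfl⟩, hz1⟩
      have hl0 : l ≠ 0 := mulVec_ne hB (cast_ne hz)
      rcases hPall l hlT hl0 with hP | hP
      · have h1 := hu2 l (l + t • (M *ᵥ l))
        rw [map_add, map_smul, hMu l hP, hu1, smul_zero, add_zero] at h1
        have : g l = lam := hz1
        linarith
      · have h1 := hu2 (-l) (-(l + t • (M *ᵥ l)))
        have e2 : -(l + t • (M *ᵥ l)) = (-l) + t • (M *ᵥ (-l)) := by
          rw [Matrix.mulVec_neg, smul_neg, neg_add]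
        rw [h.neg] at h1
        rw [e2, map_add, map_smul, hMu (-l) hP, hu1, smul_zero, add_zero, h.neg] at h1
        have : g l = lam := hz1
        linarith
    · have h1 : g l ≤ g (l + t • (M *ᵥ l)) + t * (C * g l) := by
        have e3 : l = (l + t • (M *ᵥ l)) + -(t • (M *ᵥ l)) := by abel
        calc g l = g ((l + t • (M *ᵥ l)) + -(t • (M *ᵥ l))) := by rw [← e3]
          _ ≤ g (l + t • (M *ᵥ l)) + g (-(t • (M *ᵥ l))) := h.add _ _
          _ = g (l + t • (M *ᵥ l)) + t * g (M *ᵥ l) := by rw [h.neg, h.hom _ _ ht0.le]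
          _ ≤ _ := by gcongr; exact hMg l
      have h2 : (1 + η) * lam ≤ g l := hz1
      have hgl : 0 ≤ g l := h.nonneg l
      have h3 : lam ≤ (1 - t * C) * g l := by
        have h4 : 0 < 1 - t * C := by
          have : t * C ≤ t * ((1 + η) * C) := by
            have : 0 ≤ t * (η * C) := by positivity
            nlinarith
          nlinarith
        have h5 : 1 ≤ (1 - t * C) * (1 + η) := by nlinarith
        calc lam = 1 * lam := (one_mul _).symm
          _ ≤ ((1 - t * C) * (1 + η)) * lam := by gcongr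
          _ = (1 - t * C) * ((1 + η) * lam) := by ring
          _ ≤ _ := by gcongr
      linarith
  -- conclusion
  have hBpos : 0 < |B.det| := abs_pos.mpr hB
  rw [Matrix.det_mul, abs_mul] at hcon
  set D := |(1 + t • M).det| with hD
  have hDle : D ≤ 1 + K * t ^ 2 := hdet t ht0.le ht1.le
  have hlampow : 0 < lam ^ d := by positivity
  rcases (abs_nonneg (1 + t • M).det).eq_or_lt with hD0 | hD0
  · -- degenerate determinant is impossible as the lattice minimum is positive
    have hdet0 : (1 + t • M).det = 0 := by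
      have := hD0.symm
      exact abs_eq_zero.mp this
    have : ∃ x : Fin d → ℝ, x ≠ 0 ∧ (1 + t • M) *ᵥ x = 0 := by
      obtain ⟨x, hx, hx'⟩ := Matrix.exists_mulVec_eq_zero_iff.mpr hdet0
      exact ⟨x, hx, hx'⟩
    obtain ⟨x, hx, hx'⟩ := this
    have e1 : x = -(t • (M *ᵥ x)) := by
      rw [Matrix.add_mulVec, Matrix.one_mulVec, Matrix.smul_mulVec] at hx'
      exact eq_neg_of_add_eq_zero_left hx'
    have h1 : g x ≤ t * (C * g x) := by
      calc g x = g (-(t • (M *ᵥ x))) := by rw [← e1]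
        _ = t * g (M *ᵥ x) := by rw [h.neg, h.hom _ _ ht0.le]
        _ ≤ _ := by gcongr; exact hMg x
    have h2 := h.pos hx
    have h3 : t * C < 1 := by
      have : t * C ≤ t * ((1 + η) * C) := by
        have : 0 ≤ t * (η * C) := by positivity
        nlinarith
      have h4 : t * C * (1 + η) < η := by linarith
      nlinarith [mul_pos ht0 hC]
    nlinarith
  · have hDpos : 0 < D := hD0
    have h1 : lam ^ d / (D * |B.det|) ≤ (1 - a * t) * (lam ^ d / |B.det|) := by
      refine le_trans ?_ hcon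
      gcongr
    have h2 : 1 ≤ (1 - a * t) * D := by
      have e : lam ^ d / (D * |B.det|) = (lam ^ d / |B.det|) * (1 / D) := by field_simp
      rw [e] at h1
      have hq : 0 < lam ^ d / |B.det| := by positivity
      have h3 : 1 / D ≤ 1 - a * t := by
        by_contra hc
        push Not at hc
        have := mul_lt_mul_of_pos_left hc hq
        linarith
      calc (1 : ℝ) = 1 / D * D := by field_simp
        _ ≤ (1 - a * t) * D := by gcongr
    have h4 : 0 < 1 - a * t := by
      by_contra hc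
      push Not at hc
      have : (1 - a * t) * D ≤ 0 := mul_nonpos_of_nonpos_of_nonneg hc hDpos.le
      linarith
    have h5 : 1 ≤ (1 - a * t) * (1 + K * t ^ 2) := h2.trans (by gcongr)
    have h6 : 0 < a * t * (K * t ^ 2) := by positivity
    have h7 : K * t ^ 2 < a * t := by
      have : K * t ^ 2 = (K * t) * t := by ring
      rw [this]; gcongr
    nlinarith

end Pool.Agent.H263R2.Ultra
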