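import Mathlib
import Pool.Agent.H263R2.Ultra.A
import Pool.Agent.H263R2.Ultra.C

set_option autoImplicit false

namespace Pool.Agent.H263R2.Ultra

open Matrix MeasureTheory TopologicalSpace Topology Set
open Pool.Agent.Helper876 (cast minN IsDens Contacts)

variable {d : ℕ}

/-- matrix with given columns -/
def Bm (v : Fin d → E d) : Matrix (Fin d) (Fin d) ℝ := Matrix.of fun i j => v j i

/-- matrix of a linear map -/
noncomputable def mat (A : E d →L[ℝ] E d) : Matrix (Fin d) (Fin d) ℝ :=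
  LinearMap.toMatrix (EuclideanSpace.basisFun (Fin d) ℝ).toBasis
    (EuclideanSpace.basisFun (Fin d) ℝ).toBasis (A : E d →ₗ[ℝ] E d)

lemma mat_mulVec (A : E d →L[ℝ] E d) (x : E d) :
    mat A *ᵥ (WithLp.ofLp x) = WithLp.ofLp (A x) := by
  have h := LinearMap.toMatrix_mulVec_repr (EuclideanSpace.basisFun (Fin d) ℝ).toBasis
    (EuclideanSpace.basisFun (Fin d) ℝ).toBasis (A : E d →ₗ[ℝ] E d) x
  have e : ∀ y : E d, (((EuclideanSpace.basisFun (Fin d) ℝ).toBasis.repr y : Fin d →₀ ℝ) :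
      Fin d → ℝ) = WithLp.ofLp y := by
    intro y; funext i; simp
  rw [e, e] at h
  exact h

lemma mat_trace (A : E d →L[ℝ] E d) :
    LinearMap.trace ℝ (E d) (A : E d →ₗ[ℝ] E d) = (mat A).trace := by
  rw [mat, LinearMap.trace_eq_matrix_trace ℝ (EuclideanSpace.basisFun (Fin d) ℝ).toBasis]

/-- linear map of a matrix -/
noncomputable def ofMat (M : Matrix (Fin d) (Fin d) ℝ) : E d →L[ℝ] E d :=
  LinearMap.toContinuousLinearMap (Matrix.toLin (EuclideanSpace.basisFun (Fin d) ℝ).toBasis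
    (EuclideanSpace.basisFun (Fin d) ℝ).toBasis M)

lemma mat_ofMat (M : Matrix (Fin d) (Fin d) ℝ) : mat (ofMat M) = M := by
  simp [mat, ofMat]

lemma ofMat_smul (t : ℝ) (M : Matrix (Fin d) (Fin d) ℝ) : ofMat (t • M) = t • ofMat M := by
  simp [ofMat]

lemma vol_par (v : Fin d → E d) : (volume (parallelepiped v)).toReal = |(Bm v).det| := by
  rw [← (EuclideanSpace.basisFun (Fin d) ℝ).addHaar_eq_volume,
    MeasureTheory.Measure.addHaar_parallelepiped, ENNReal.toReal_ofReal (abs_nonneg _),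
    Module.Basis.det_apply]
  have : (EuclideanSpace.basisFun (Fin d) ℝ).toBasis.toMatrix v = Bm v := by
    ext i j
    simp [Module.Basis.toMatrix_apply, Bm]
  rw [this]

lemma sum_eq (v : Fin d → E d) (z : Fin d → ℤ) :
    ∑ i, (z i : ℝ) • v i = WithLp.toLp 2 (Bm v *ᵥ cast z) := by
  ext k
  simp only [WithLp.ofLp_sum, Finset.sum_apply, PiLp.smul_apply, smul_eq_mul, Matrix.mulVec,
    dotProduct, Bm, Matrix.of_apply, Pool.Agent.Helper876.cast_apply]
  exact Finset.sum_congr rfl fun i _ => mul_comm _ _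

lemma inf_eq (C : X d) (v : Fin d → E d) :
    (⨅ z : {z : Fin d → ℤ // z ≠ 0}, gauge (C.1 : Set (E d)) (∑ i, (z.1 i : ℝ) • v i)) =
      minN (gg C) (Bm v) := by
  unfold minN gg
  congr 1
  funext z
  rw [sum_eq]

lemma Bm_add (v : Fin d → E d) (A : E d →L[ℝ] E d) :
    Bm (fun j => v j + A (v j)) = (1 + mat A) * Bm v := by
  rw [add_mul, one_mul]
  ext i j
  have h := congrFun (mat_mulVec A (v j)) i
  simp only [Bm, Matrix.of_apply, Matrix.add_apply, PiLp.add_apply, Matrix.mul_apply]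
  rw [← h]
  rfl

/-- columns of a matrix -/
noncomputable def col (B : Matrix (Fin d) (Fin d) ℝ) (j : Fin d) : E d :=
  WithLp.toLp 2 fun i => B i j

lemma Bm_col (B : Matrix (Fin d) (Fin d) ℝ) : Bm (col B) = B := by
  ext i j
  rfl

lemma det_ne (A : E d →L[ℝ] E d) (hA : ‖A‖ < 1) : (1 + mat A).det ≠ 0 := by
  intro h
  obtain ⟨x, hx, hx'⟩ := Matrix.exists_mulVec_eq_zero_iff.mpr h
  rw [Matrix.add_mulVec, Matrix.one_mulVec] at hx'
  have h1 := mat_mulVec A (WithLp.toLp 2 x)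
  have h2 : mat A *ᵥ x = WithLp.ofLp (A (WithLp.toLp 2 x)) := h1
  rw [h2] at hx'
  have h3 : A (WithLp.toLp 2 x) = -(WithLp.toLp 2 x) := by
    have : (WithLp.toLp 2 x : E d) + A (WithLp.toLp 2 x) = 0 := by
      ext i
      exact congrFun hx' i
    exact eq_neg_of_add_eq_zero_right this
  have h4 := A.le_opNorm (WithLp.toLp 2 x)
  rw [h3, norm_neg] at h4
  have h5 : 0 < ‖(WithLp.toLp 2 x : E d)‖ := by
    rw [norm_pos_iff]
    intro h0
    apply hx
    have := congrArg (WithLp.ofLp (p := 2)) h0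
    simpa using this
  nlinarith

lemma linInd_col {B : Matrix (Fin d) (Fin d) ℝ} (hB : B.det ≠ 0) : LinearIndependent ℝ (col B) := by
  rw [Fintype.linearIndependent_iff]
  intro c hc i
  by_contra hi
  have hc0 : c ≠ 0 := fun h => hi (by rw [h]; rfl)
  apply mulVec_ne hB hc0
  funext k
  have h1 := congrArg (fun y : E d => y k) hc
  simp only [WithLp.ofLp_sum, Finset.sum_apply, PiLp.smul_apply, smul_eq_mul, PiLp.zero_apply,
    col] at h1
  simp only [Matrix.mulVec, dotProduct, Pi.zero_apply]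
  rw [← h1]
  exact Finset.sum_congr rfl fun i _ => mul_comm _ _

lemma nl_gg (C : X d) (hC : (C.1 : Set (E d)) ∈ 𝓝 (0 : E d)) : NL (gg C) := by
  have habs : Absorbent ℝ (C.1 : Set (E d)) := absorbent_nhds_zero hC
  -- equivalence of norms
  obtain ⟨a, ha, ha'⟩ : ∃ a : ℝ, 0 < a ∧ ∀ x : Fin d → ℝ, ‖x‖ ≤ a * ‖(WithLp.toLp 2 x : E d)‖ := by
    refine ⟨1, one_pos, fun x => ?_⟩
    rw [one_mul]
    exact Pool.Agent.Results.MP_2a19ed_co.AdCut.norm_ofLp_le (WithLp.toLp 2 x : E d)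
  obtain ⟨b, hb, hb'⟩ : ∃ b : ℝ, 0 < b ∧ ∀ x : Fin d → ℝ, ‖(WithLp.toLp 2 x : E d)‖ ≤ b * ‖x‖ := by
    let L : (Fin d → ℝ) →L[ℝ] E d :=
      ((EuclideanSpace.equiv (Fin d) ℝ).symm : (Fin d → ℝ) →L[ℝ] E d)
    refine ⟨‖L‖ + 1, by positivity, fun x => ?_⟩
    calc ‖(WithLp.toLp 2 x : E d)‖ = ‖L x‖ := rfl
      _ ≤ ‖L‖ * ‖x‖ := L.le_opNorm x
      _ ≤ (‖L‖ + 1) * ‖x‖ := by gcongr; linarith
  refine ⟨?_, ?_, ?_, ?_, ?_⟩
  · intro c x hc
    show gauge (C.1 : Set (E d)) (WithLp.toLp 2 (c • x)) = c * gauge _ (WithLp.toLp 2 x)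
    rw [WithLp.toLp_smul, gauge_smul_of_nonneg hc, smul_eq_mul]
  · intro x y
    show gauge (C.1 : Set (E d)) (WithLp.toLp 2 (x + y)) ≤ _
    rw [WithLp.toLp_add]
    exact gauge_add_le C.1.convex habs _ _
  · intro x
    show gauge (C.1 : Set (E d)) (WithLp.toLp 2 (-x)) = gauge _ (WithLp.toLp 2 x)
    rw [WithLp.toLp_neg]
    exact gauge_neg (fun x hx => C.2 x hx) _
  · obtain ⟨R, hR⟩ := C.1.isCompact.isBounded.subset_closedBall (0 : E d)
    have hR' : (C.1 : Set (E d)) ⊆ Metric.closedBall 0 (|R| + 1) :=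
      hR.trans (Metric.closedBall_subset_closedBall (by linarith [le_abs_self R]))
    refine ⟨1 / (a * (|R| + 1)), by positivity, fun x => ?_⟩
    have h1 := le_gauge_of_subset_closedBall habs (by positivity) hR' (x := (WithLp.toLp 2 x : E d))
    refine le_trans ?_ h1
    rw [one_div, inv_mul_le_iff₀ (by positivity)]
    calc ‖x‖ ≤ a * ‖(WithLp.toLp 2 x : E d)‖ := ha' x
      _ = a * (|R| + 1) * (‖(WithLp.toLp 2 x : E d)‖ / (|R| + 1)) := by field_simp
  · obtain ⟨r, hr, hr'⟩ := Metric.mem_nhds_iff.mp hC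
    refine ⟨2 * b / r, by positivity, fun x => ?_⟩
    show gauge (C.1 : Set (E d)) (WithLp.toLp 2 x) ≤ _
    by_cases hx : x = 0
    · subst hx
      simp
    have hn : 0 < ‖(WithLp.toLp 2 x : E d)‖ := by
      rw [norm_pos_iff]
      intro h0
      apply hx
      have := congrArg (WithLp.ofLp (p := 2)) h0
      simpa using this
    have h1 : gauge (C.1 : Set (E d)) (WithLp.toLp 2 x) ≤ 2 * ‖(WithLp.toLp 2 x : E d)‖ / r := by
      apply gauge_le_of_mem (by positivity)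
      refine ⟨(2 * ‖(WithLp.toLp 2 x : E d)‖ / r)⁻¹ • (WithLp.toLp 2 x : E d), hr' ?_, ?_⟩
      · rw [mem_ball_zero_iff, norm_smul, norm_inv, Real.norm_of_nonneg (by positivity)]
        rw [inv_mul_lt_iff₀ (by positivity)]
        have : 2 * ‖(WithLp.toLp 2 x : E d)‖ / r * r = 2 * ‖(WithLp.toLp 2 x : E d)‖ := by
          field_simp
        rw [this]; linarith
      · simp only
        rw [smul_smul, mul_inv_cancel₀ (by positivity), one_smul]
    calc _ ≤ 2 * ‖(WithLp.toLp 2 x : E d)‖ / r := h1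
      _ ≤ 2 * (b * ‖x‖) / r := by gcongr; exact hb' x
      _ = 2 * b / r * ‖x‖ := by ring

end Pool.Agent.H263R2.Ultra
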